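import Mathlib

set_option autoImplicit false

/-!
# Kahn-Saks monotonicity of the normalized order polynomial for `t ≤ 2`, every finite poset

`Ω(P, 3) / 3^n ≤ Ω(P, 2) / 2^n` (and the easy `Ω(P, 2) / 2^n ≤ Ω(P, 1)`), by an
Ahlswede-Daykin type inequality for the coordinatewise monotone map
`{0,1,2}² → {0,1}²`, `(a, b) ↦ ([min > 0], [max = 2])`, with the constant `(3/2)²` per coordinate.
-/

namespace Pool.Agent.W93.KS.ThreeLevels

lemma two_terms {X Y p m : ℝ} (hX : 0 ≤ X) (_hY : 0 ≤ Y) (hXp : X ≤ p) (hYp : Y ≤ p) (hm : 0 ≤ m)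
    (h : X * Y ≤ p * m) : X + Y ≤ p + min m p := by
  have hp : 0 ≤ p := hX.trans hXp
  have h1 : X + Y ≤ p + p := by linarith
  have h2 : X + Y ≤ p + m := by
    rcases hp.eq_or_lt with h0 | h0
    · linarith
    · have h3 : p * (X + Y) ≤ p * (p + m) := by nlinarith [mul_nonneg (sub_nonneg.mpr hXp) (sub_nonneg.mpr hYp)]
      exact le_of_mul_le_mul_left h3 h0
  rcases le_total m p with h3 | h3
  · rw [min_eq_left h3]; exact h2
  · rw [min_eq_right h3]; exact h1

lemma final_ineq {p q r s : ℝ} (hp : 0 ≤ p) (hq : 0 ≤ q) (hr : 0 ≤ r) (hs : 0 ≤ s)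
    (h : p * s = q * r) :
    4 * (2 * p + 2 * s + q + r + min r p + min r q + min r s) ≤ 9 * (p + q + r + s) := by
  rcases hr.eq_or_lt with h0 | h0
  · have e1 : min r p = 0 := by rw [← h0]; exact min_eq_left hp
    have e2 : min r q = 0 := by rw [← h0]; exact min_eq_left hq
    have e3 : min r s = 0 := by rw [← h0]; exact min_eq_left hs
    rw [e1, e2, e3]; linarith
  have e1 := min_le_left r p
  have e2 := min_le_right r p
  have e3 := min_le_left r q
  have e4 := min_le_right r q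
  have e5 := min_le_left r s
  have e6 := min_le_right r s
  rcases le_total r p with hrp | hrp
  · rcases le_total r s with hrs | hrs
    · have hqr : r ≤ q := by
        have : r * r ≤ q * r := by rw [← h]; exact mul_le_mul hrp hrs hr hp
        exact le_of_mul_le_mul_right this h0
      linarith
    · -- s ≤ r ≤ p
      have hsq : s ≤ q := by
        have : s * r ≤ q * r := by rw [← h]; nlinarith
        exact le_of_mul_le_mul_right this h0
      rcases le_total q r with hqr | hqr <;> linarith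
  · rcases le_total r s with hrs | hrs
    · have hpq : p ≤ q := by
        have : p * r ≤ q * r := by rw [← h]; exact mul_le_mul_of_nonneg_left hrs hp
        exact le_of_mul_le_mul_right this h0
      rcases le_total q r with hqr | hqr <;> linarith
    · have key : 3 * (p + s) ≤ q + 5 * r := by
        have h1 : (3 * (p + s)) * r ≤ (q + 5 * r) * r := by
          have h2 : (q + 5 * r) * r = p * s + 5 * (r * r) := by rw [h]; ring
          rw [h2]
          nlinarith [mul_nonneg (sub_nonneg.mpr hrp) (sub_nonneg.mpr hrs),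
            mul_nonneg hr (by linarith : (0:ℝ) ≤ 2 * r - p - s)]
        exact le_of_mul_le_mul_right h1 h0
      linarith

lemma le_of_sq_le_sq' {a b : ℝ} (h : a ^ 2 ≤ b ^ 2) (hb : 0 ≤ b) : a ≤ b := by
  by_contra hc
  push Not at hc
  nlinarith

/-- the one-dimensional inequality -/
lemma one_two {a0 a1 a2 b0 b1 b2 x y z w : ℝ} (ha0 : 0 ≤ a0) (ha1 : 0 ≤ a1) (ha2 : 0 ≤ a2)
    (hb0 : 0 ≤ b0) (hb1 : 0 ≤ b1) (hb2 : 0 ≤ b2) (hx : 0 ≤ x) (hy : 0 ≤ y) (hz : 0 ≤ z) (hw : 0 ≤ w)
    (h00 : a0 * b0 ≤ x * z) (h01 : a0 * b1 ≤ x * z) (h10 : a1 * b0 ≤ x * z)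
    (h02 : a0 * b2 ≤ x * w) (h20 : a2 * b0 ≤ x * w) (h11 : a1 * b1 ≤ y * z)
    (h12 : a1 * b2 ≤ y * w) (h21 : a2 * b1 ≤ y * w) (h22 : a2 * b2 ≤ y * w) :
    4 * ((a0 + a1 + a2) * (b0 + b1 + b2)) ≤ 9 * ((x + y) * (z + w)) := by
  have hxz : 0 ≤ x * z := mul_nonneg hx hz
  have hxw : 0 ≤ x * w := mul_nonneg hx hw
  have hyz : 0 ≤ y * z := mul_nonneg hy hz
  have hyw : 0 ≤ y * w := mul_nonneg hy hw
  have t1 : a0 * b1 + a1 * b0 ≤ x * z + min (y * z) (x * z) := by
    apply two_terms (mul_nonneg ha0 hb1) (mul_nonneg ha1 hb0) h01 h10 hyz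
    have : a0 * b1 * (a1 * b0) = (a0 * b0) * (a1 * b1) := by ring
    rw [this]
    exact mul_le_mul h00 h11 (mul_nonneg ha1 hb1) hxz
  have t2 : a0 * b2 + a2 * b0 ≤ x * w + min (y * z) (x * w) := by
    apply two_terms (mul_nonneg ha0 hb2) (mul_nonneg ha2 hb0) h02 h20 hyz
    have e1 : a0 * b2 * (a2 * b0) = (a0 * b0) * (a2 * b2) := by ring
    have e2 : x * w * (y * z) = (x * z) * (y * w) := by ring
    rw [e1, e2]
    exact mul_le_mul h00 h22 (mul_nonneg ha2 hb2) hxz
  have t3 : a1 * b2 + a2 * b1 ≤ y * w + min (y * z) (y * w) := by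
    apply two_terms (mul_nonneg ha1 hb2) (mul_nonneg ha2 hb1) h12 h21 hyz
    have e1 : a1 * b2 * (a2 * b1) = (a1 * b1) * (a2 * b2) := by ring
    have e2 : y * w * (y * z) = (y * z) * (y * w) := by ring
    rw [e1, e2]
    exact mul_le_mul h11 h22 (mul_nonneg ha2 hb2) hyz
  have hf := final_ineq hxz hxw hyz hyw (by ring : (x * z) * (y * w) = (x * w) * (y * z))
  have e1 : (a0 + a1 + a2) * (b0 + b1 + b2) = a0 * b0 + (a0 * b1 + a1 * b0) + (a0 * b2 + a2 * b0) +
      a1 * b1 + (a1 * b2 + a2 * b1) + a2 * b2 := by ring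
  have e2 : (x + y) * (z + w) = x * z + x * w + y * z + y * w := by ring
  rw [e1, e2]
  linarith

/-- the two coordinate maps -/
def f1 (a b : Fin 3) : Fin 2 := if min a b = 0 then 0 else 1
def f2 (a b : Fin 3) : Fin 2 := if max a b = 2 then 1 else 0

lemma f1_mono : ∀ a b a' b' : Fin 3, a ≤ a' → b ≤ b' → f1 a b ≤ f1 a' b' := by decide
lemma f2_mono : ∀ a b a' b' : Fin 3, a ≤ a' → b ≤ b' → f2 a b ≤ f2 a' b' := by decide

lemma sum_cons {k : ℕ} {n : ℕ} (F : (Fin (n + 1) → Fin k) → ℝ) :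
    ∑ f, F f = ∑ a : Fin k, ∑ f : Fin n → Fin k, F (Fin.cons a f) := by
  rw [← Fintype.sum_prod_type']
  exact (Fintype.sum_equiv (Fin.consEquiv (fun _ : Fin (n + 1) => Fin k)) _ _ (fun p => rfl)).symm

lemma cons_comp {n : ℕ} (g : Fin 3 → Fin 3 → Fin 2) (a b : Fin 3) (f h : Fin n → Fin 3) :
    (fun i => g ((Fin.cons a f : Fin (n + 1) → Fin 3) i) ((Fin.cons b h : Fin (n + 1) → Fin 3) i)) =
      Fin.cons (g a b) (fun i => g (f i) (h i)) := by
  funext i
  refine Fin.cases ?_ (fun j => ?_) i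
  · simp
  · simp

/-- the tensorised inequality -/
theorem tensor (n : ℕ) : ∀ (F1 F2 : (Fin n → Fin 3) → ℝ) (G1 G2 : (Fin n → Fin 2) → ℝ),
    (∀ f, 0 ≤ F1 f) → (∀ f, 0 ≤ F2 f) → (∀ f, 0 ≤ G1 f) → (∀ f, 0 ≤ G2 f) →
    (∀ f g, F1 f * F2 g ≤ G1 (fun i => f1 (f i) (g i)) * G2 (fun i => f2 (f i) (g i))) →
    4 ^ n * ((∑ f, F1 f) * (∑ f, F2 f)) ≤ 9 ^ n * ((∑ f, G1 f) * (∑ f, G2 f)) := by
  induction n with
  | zero =>
    intro F1 F2 G1 G2 _ _ _ _ h
    simp only [pow_zero, one_mul, Fintype.sum_unique]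
    refine (h _ _).trans (le_of_eq ?_)
    congr 2 <;> exact Subsingleton.elim _ _
  | succ n ih =>
    intro F1 F2 G1 G2 hF1 hF2 hG1 hG2 h
    rw [sum_cons F1, sum_cons F2, sum_cons G1, sum_cons G2]
    set A : Fin 3 → ℝ := fun a => ∑ f : Fin n → Fin 3, F1 (Fin.cons a f) with hA
    set B : Fin 3 → ℝ := fun a => ∑ f : Fin n → Fin 3, F2 (Fin.cons a f) with hB
    set X : Fin 2 → ℝ := fun a => ∑ f : Fin n → Fin 2, G1 (Fin.cons a f) with hX
    set Z : Fin 2 → ℝ := fun a => ∑ f : Fin n → Fin 2, G2 (Fin.cons a f) with hZ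
    have hA0 : ∀ a, 0 ≤ A a := fun a => Finset.sum_nonneg (fun f _ => hF1 _)
    have hB0 : ∀ a, 0 ≤ B a := fun a => Finset.sum_nonneg (fun f _ => hF2 _)
    have hX0 : ∀ a, 0 ≤ X a := fun a => Finset.sum_nonneg (fun f _ => hG1 _)
    have hZ0 : ∀ a, 0 ≤ Z a := fun a => Finset.sum_nonneg (fun f _ => hG2 _)
    have key : ∀ a b : Fin 3, (4 ^ n * A a) * B b ≤ (9 ^ n * X (f1 a b)) * Z (f2 a b) := by
      intro a b
      have := ih (fun f => F1 (Fin.cons a f)) (fun f => F2 (Fin.cons b f))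
        (fun f => G1 (Fin.cons (f1 a b) f)) (fun f => G2 (Fin.cons (f2 a b) f))
        (fun f => hF1 _) (fun f => hF2 _) (fun f => hG1 _) (fun f => hG2 _)
        (fun f g => by
          have h1 := h (Fin.cons a f) (Fin.cons b g)
          rw [cons_comp, cons_comp] at h1
          exact h1)
      rw [mul_assoc, mul_assoc]
      exact this
    have h4 : (0 : ℝ) ≤ 4 ^ n := by positivity
    have h9 : (0 : ℝ) ≤ 9 ^ n := by positivity
    have := one_two (mul_nonneg h4 (hA0 0)) (mul_nonneg h4 (hA0 1)) (mul_nonneg h4 (hA0 2))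
      (hB0 0) (hB0 1) (hB0 2) (mul_nonneg h9 (hX0 0)) (mul_nonneg h9 (hX0 1)) (hZ0 0) (hZ0 1)
      (key 0 0) (key 0 1) (key 1 0) (key 0 2) (key 2 0) (key 1 1) (key 1 2) (key 2 1) (key 2 2)
    rw [Fin.sum_univ_three, Fin.sum_univ_three, Fin.sum_univ_two, Fin.sum_univ_two]
    have e1 : (4 : ℝ) ^ (n + 1) * ((A 0 + A 1 + A 2) * (B 0 + B 1 + B 2)) =
        4 * ((4 ^ n * A 0 + 4 ^ n * A 1 + 4 ^ n * A 2) * (B 0 + B 1 + B 2)) := by ring
    have e2 : (9 : ℝ) ^ (n + 1) * ((X 0 + X 1) * (Z 0 + Z 1)) =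
        9 * ((9 ^ n * X 0 + 9 ^ n * X 1) * (Z 0 + Z 1)) := by ring
    rw [e1, e2]
    exact this

/-- the number of monotone maps `α → Fin k` as a sum over `Fin (card α) → Fin k` -/
lemma card_eq_sum (α : Type) [Fintype α] [PartialOrder α] (k : ℕ) (e : α ≃ Fin (Fintype.card α)) :
    (Nat.card {f : α → Fin k // Monotone f} : ℝ) =
      ∑ f : Fin (Fintype.card α) → Fin k, (by classical exact if Monotone (f ∘ e) then (1 : ℝ) else 0) := by
  classical
  have h1 : Nat.card {f : α → Fin k // Monotone f} =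
      Nat.card {f : Fin (Fintype.card α) → Fin k // Monotone (f ∘ e)} := by
    apply Nat.card_congr
    refine (Equiv.subtypeEquiv (Equiv.arrowCongr e (Equiv.refl _)) ?_)
    intro f
    have : (Equiv.arrowCongr e (Equiv.refl (Fin k)) f) ∘ e = f := by
      funext i
      simp
    rw [this]
  rw [h1, Nat.card_eq_fintype_card, Fintype.card_subtype, Finset.sum_boole]

theorem three_levels (α : Type) [Fintype α] [PartialOrder α] (t : ℕ) (h1 : 1 ≤ t) (h2 : t ≤ 2) :
    (Nat.card {f : α → Fin (t + 1) // Monotone f} : ℝ) / ((t + 1 : ℝ) ^ Fintype.card α)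
      ≤ (Nat.card {f : α → Fin t // Monotone f} : ℝ) / ((t : ℝ) ^ Fintype.card α) := by
  classical
  have hcases : t = 1 ∨ t = 2 := by omega
  rcases hcases with rfl | rfl
  · -- `t = 1`
    have hcard : (Nat.card {f : α → Fin 2 // Monotone f} : ℝ) ≤ 2 ^ Fintype.card α := by
      have : Nat.card {f : α → Fin 2 // Monotone f} ≤ 2 ^ Fintype.card α := by
        rw [Nat.card_eq_fintype_card]
        calc Fintype.card {f : α → Fin 2 // Monotone f} ≤ Fintype.card (α → Fin 2) :=
              Fintype.card_subtype_le _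
          _ = 2 ^ Fintype.card α := by simp
      exact_mod_cast this
    have hone : (Nat.card {f : α → Fin 1 // Monotone f} : ℝ) = 1 := by
      have : Nat.card {f : α → Fin 1 // Monotone f} = 1 := by
        have : Unique {f : α → Fin 1 // Monotone f} :=
          { default := ⟨fun _ => 0, fun _ _ _ => le_rfl⟩
            uniq := fun f => Subtype.ext (funext fun i => Subsingleton.elim _ _) }
        exact Nat.card_unique
      exact_mod_cast this
    rw [hone]
    have h3 : ((1 : ℕ) + 1 : ℝ) = 2 := by norm_num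
    rw [h3, div_le_iff₀ (by positivity)]
    simpa using hcard
  · -- `t = 2`
    let e := Fintype.equivFin α
    set n := Fintype.card α with hn
    have ht := tensor n (fun f => if Monotone (f ∘ e) then (1 : ℝ) else 0)
      (fun f => if Monotone (f ∘ e) then (1 : ℝ) else 0)
      (fun f => if Monotone (f ∘ e) then (1 : ℝ) else 0)
      (fun f => if Monotone (f ∘ e) then (1 : ℝ) else 0)
      (fun f => by split_ifs <;> norm_num) (fun f => by split_ifs <;> norm_num)
      (fun f => by split_ifs <;> norm_num) (fun f => by split_ifs <;> norm_num)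
      (by
        intro f g
        by_cases hf : Monotone (f ∘ e)
        · by_cases hg : Monotone (g ∘ e)
          · have m1 : Monotone ((fun i => f1 (f i) (g i)) ∘ e) := by
              intro x y hxy
              exact f1_mono _ _ _ _ (hf hxy) (hg hxy)
            have m2 : Monotone ((fun i => f2 (f i) (g i)) ∘ e) := by
              intro x y hxy
              exact f2_mono _ _ _ _ (hf hxy) (hg hxy)
            rw [if_pos hf, if_pos hg, if_pos m1, if_pos m2]
          · rw [if_neg hg, mul_zero]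
            split_ifs <;> norm_num
        · rw [if_neg hf, zero_mul]
          split_ifs <;> norm_num)
    have c3 := card_eq_sum α 3 e
    have c2 := card_eq_sum α 2 e
    have hh3 : ((2 : ℕ) + 1 : ℝ) = 3 := by norm_num
    have key : 4 ^ n * ((Nat.card {f : α → Fin 3 // Monotone f} : ℝ) ^ 2) ≤
        9 ^ n * ((Nat.card {f : α → Fin 2 // Monotone f} : ℝ) ^ 2) := by
      rw [c3, c2, sq, sq]
      convert ht using 2
    have k2 : ((2 : ℝ) ^ n * (Nat.card {f : α → Fin 3 // Monotone f} : ℝ)) ^ 2 ≤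
        ((3 : ℝ) ^ n * (Nat.card {f : α → Fin 2 // Monotone f} : ℝ)) ^ 2 := by
      rw [mul_pow, mul_pow, ← pow_mul, ← pow_mul, mul_comm n 2, pow_mul, pow_mul]
      have e4 : (2 : ℝ) ^ 2 = 4 := by norm_num
      have e9 : (3 : ℝ) ^ 2 = 9 := by norm_num
      rw [e4, e9]
      exact key
    have k3 : (2 : ℝ) ^ n * (Nat.card {f : α → Fin 3 // Monotone f} : ℝ) ≤
        (3 : ℝ) ^ n * (Nat.card {f : α → Fin 2 // Monotone f} : ℝ) :=
      le_of_sq_le_sq' k2 (by positivity)
    rw [hh3, div_le_div_iff₀ (by positivity) (by positivity)]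
    have e2 : (((2 : ℕ) : ℝ)) = 2 := by norm_num
    rw [e2]
    calc (Nat.card {f : α → Fin (2 + 1) // Monotone f} : ℝ) * 2 ^ n
        = (2 : ℝ) ^ n * (Nat.card {f : α → Fin 3 // Monotone f} : ℝ) := by ring
      _ ≤ _ := k3
      _ = _ := by ring

end Pool.Agent.W93.KS.ThreeLevels
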